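import Mathlib
import Pool.Agent.H79.Alpha.Defs
import Pool.Agent.H79.Alpha.Lab3
import Pool.Agent.H79.Alpha.Mid5
import Pool.Agent.H79.Alpha.Inj5
import Pool.Agent.H79.Alpha.Assemble

/-!
# Alpha-labelings of the prisms `C_{4m+2} × P_{2n+1}`

For all `m ≥ 2` and `n ≥ 1` the Cartesian product of the cycle with `4m+2` vertices and the path
with `2n+1` vertices has an alpha-labeling.
-/

open SimpleGraph Pool.Agent.H79.Alpha

namespace Pool.Agent.Results.MP_d9e2d7_co.AllPrisms

theorem cover5 (m b t : ℤ) (hm : 2 ≤ m) (hb : 5 ≤ b) (hodd : b % 2 = 1) (h0 : 0 ≤ t)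
    (h1 : t < (2 * b - 1) * (4 * m + 2)) :
    ∃ i j i' j', IsEdge m b i j i' j' ∧ lab5 m b i j + lab5 m b i' j' = t := by
  rcases lt_or_ge t ((2 * b - 1) * (2 * m - 2) + (b - 1)) with h | h
  · exact cover5_lo m b t hb h0 h
  rcases lt_or_ge t ((2 * b - 1) * (2 * m + 1) + b) with h' | h'
  · obtain ⟨i, j, i', j', hE, hs⟩ := cover5_mid m b (t - (4 * (m * b) - 2 * m + b - 1)) hm hb hodd
      (by nlinarith) (by nlinarith)
    exact ⟨i, j, i', j', hE, by rw [hs]; ring⟩
  · exact cover5_hi m b t hb h' h1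

/-- For all `m ≥ 2` and `n ≥ 1` the prism `C_{4m+2} × P_{2n+1}` has an alpha-labeling. -/
theorem result (m n : ℕ) (hm : 2 ≤ m) (hn : 1 ≤ n) :
    ∃ f : Fin (4 * m + 2) × Fin (2 * n + 1) → ℕ,
      IsAlphaLabeling (cycleGraph (4 * m + 2) □ pathGraph (2 * n + 1)) f := by
  have hm' : (2 : ℤ) ≤ m := by exact_mod_cast hm
  rcases Nat.lt_or_ge n 2 with h | h
  · have hn1 : n = 1 := by omega
    subst hn1
    refine assemble m 1 (lab3 m) (10 * m + 3) (10 * m + 6) (by push_cast; ring) (by omega)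
      ?_ ?_ ?_ ?_
    · intro i j a1 a2 a3 a4 hp
      have := bound3 m i j hm' a1 a2 a3 (by push_cast at a4; linarith)
      rw [if_pos hp] at this
      exact this
    · intro i j a1 a2 a3 a4 hp
      have := bound3 m i j hm' a1 a2 a3 (by push_cast at a4; linarith)
      rw [if_neg (by omega)] at this
      exact this
    · intro i j i' j' a3 a4 b3 b4 hp he
      exact inj3 m i j i' j' a3 (by push_cast at a4; linarith) b3 (by push_cast at b4; linarith)
        hp he
    · intro t t0 t1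
      obtain ⟨i, j, i', j', hE, hs⟩ := cover3 m t hm' t0 (by push_cast at t1; linarith)
      refine ⟨i, j, i', j', ?_, hs⟩
      push_cast
      exact hE
  · have hn' : (2 : ℤ) ≤ n := by exact_mod_cast h
    have hb : (5 : ℤ) ≤ 2 * n + 1 := by linarith
    have hodd : (2 * (n : ℤ) + 1) % 2 = 1 := by omega
    have hhalf : (2 * (n : ℤ) + 1 - 1) / 2 = n := by omega
    refine assemble m n (lab5 m (2 * n + 1))
      (4 * (m * (2 * n + 1)) + (2 * n + 1) - 2 * m - 1 + n + (2 * n + 1))
      (4 * (m * (2 * n + 1)) + (2 * n + 1) - 2 * m - 1 + n) (by ring) (by nlinarith)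
      ?_ ?_ ?_ ?_
    · intro i j a1 a2 a3 a4 hp
      have := bound5 m (2 * n + 1) i j hm' hb hodd a1 a2 a3 a4
      rw [if_pos hp, hhalf] at this
      exact this
    · intro i j a1 a2 a3 a4 hp
      have := bound5 m (2 * n + 1) i j hm' hb hodd a1 a2 a3 a4
      rw [if_neg (by omega), hhalf, add_zero] at this
      exact this
    · intro i j i' j' a3 a4 b3 b4 hp he
      exact inj5 m (2 * n + 1) i j i' j' hb hodd a3 a4 b3 b4 hp he
    · intro t t0 t1
      exact cover5 m (2 * n + 1) t hm' hb hodd t0 (by linarith)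

end Pool.Agent.Results.MP_d9e2d7_co.AllPrisms
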